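import Pool.Agent.Helper15.FC.St1

set_option autoImplicit false

namespace Pool.Agent.Helper22.FC

open Pool.Agent.Helper15.FC Polynomial

section

variable {k L : Type} [Field k] [Field L] [Algebra k L]

private theorem ext_indep (s : Set (PowerSeries k))
    (hs : LinearIndependent k ((↑) : s → PowerSeries k)) :
    LinearIndependent L (fun x : s => PowerSeries.map (algebraMap k L) (x : PowerSeries k)) := by
  rw [linearIndependent_iff'] at hs ⊢
  intro t g hg i hi
  rw [← Module.forall_dual_apply_eq_zero_iff k (g i)]
  intro lam
  refine hs t (fun i => lam (g i)) ?_ i hi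
  ext n
  have h1 := congrArg (fun u => lam (PowerSeries.coeff n u)) hg
  simp only [map_sum, map_zero] at h1 ⊢
  rw [← h1]
  refine Finset.sum_congr rfl fun j _ => ?_
  rw [PowerSeries.coeff_smul, PowerSeries.coeff_smul, PowerSeries.coeff_map, smul_eq_mul,
    smul_eq_mul]
  rw [mul_comm (g j), ← Algebra.smul_def, map_smul, smul_eq_mul, mul_comm]

private theorem ext_span (S : Set (PowerSeries k)) :
    Module.finrank L (Submodule.span L ((PowerSeries.map (algebraMap k L)) '' S)) =
      Module.finrank k (Submodule.span k S) := by
  obtain ⟨s, hsS, hspan, hs⟩ := exists_linearIndependent k S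
  have hinj : Function.Injective (PowerSeries.map (algebraMap k L)) := by
    intro u v h
    ext n
    have := congrArg (PowerSeries.coeff n) h
    rw [PowerSeries.coeff_map, PowerSeries.coeff_map] at this
    exact (algebraMap k L).injective this
  have hspan' : Submodule.span L ((PowerSeries.map (algebraMap k L)) '' S) =
      Submodule.span L ((PowerSeries.map (algebraMap k L)) '' s) := by
    apply le_antisymm
    · rw [Submodule.span_le]
      rintro _ ⟨u, hu, rfl⟩
      have hu' : u ∈ Submodule.span k s := by
        rw [hspan]
        exact Submodule.subset_span hu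
      clear hu
      induction hu' using Submodule.span_induction with
      | mem x hx => exact Submodule.subset_span ⟨x, hx, rfl⟩
      | zero => simp
      | add x y _ _ hx hy =>
        rw [map_add]
        exact Submodule.add_mem _ hx hy
      | smul a x _ hx =>
        have : PowerSeries.map (algebraMap k L) (a • x) =
            (algebraMap k L a) • PowerSeries.map (algebraMap k L) x := by
          ext n
          simp [Algebra.smul_def]
        rw [this]
        exact Submodule.smul_mem _ _ hx
    · exact Submodule.span_mono (Set.image_mono hsS)
  rw [hspan', ← hspan]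
  have h1 : Module.rank k (Submodule.span k s) = Cardinal.mk s := rank_span_set hs
  have h2 : Module.rank L (Submodule.span L ((PowerSeries.map (algebraMap k L)) '' s)) =
      Cardinal.mk ((PowerSeries.map (algebraMap k L)) '' s) := by
    apply rank_span_set
    have h3 := ext_indep (L := L) s hs
    exact (LinearIndepOn.id_image (v := fun x : PowerSeries k =>
      PowerSeries.map (algebraMap k L) x) h3)
  rw [Module.finrank, Module.finrank, h1, h2, Cardinal.mk_image_eq hinj]

private theorem ext_Vj {M : Type} [Field M] {b : ℕ} (y : Fin b → PowerSeries M) (j : ℕ) :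
    Vj y j = Submodule.span M ((fun n : Option (Fin b) →₀ ℕ => n.prod fun i e => pt y i ^ e) ''
      {n | (n.sum fun _ e => e) ≤ j}) := by
  unfold Vj
  have h : MvPolynomial.restrictTotalDegree (Option (Fin b)) M j =
      Submodule.span M ((fun n : Option (Fin b) →₀ ℕ => MvPolynomial.monomial n (1 : M)) ''
        {n | (n.sum fun _ e => e) ≤ j}) := MvPolynomial.restrictSupport_eq_span M _
  rw [h, Submodule.map_span, Set.image_image]
  congr 2
  ext u n
  simp [ev, MvPolynomial.aeval_monomial]

end

theorem hEXT (_hVB : StVB) : StEXT := by
  intro k L _ _ _ b y j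
  have h : ((fun n : Option (Fin b) →₀ ℕ => n.prod fun i e => pt (upL L y) i ^ e) ''
      {n | (n.sum fun _ e => e) ≤ j}) = (PowerSeries.map (algebraMap k L)) ''
      ((fun n : Option (Fin b) →₀ ℕ => n.prod fun i e => pt y i ^ e) ''
      {n | (n.sum fun _ e => e) ≤ j}) := by
    rw [Set.image_image]
    apply Set.image_congr
    intro n _
    rw [map_finsuppProd]
    apply Finsupp.prod_congr
    intro o _
    rw [map_pow]
    congr 1
    cases o with
    | none => simp [pt]
    | some t => simp [pt, upL]
  rw [ext_Vj, ext_Vj, h, ext_span]

end Pool.Agent.Helper22.FC
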