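import Pool.Agent.Helper15.FC.St3

set_option autoImplicit false

namespace Pool.Agent.Helper22.FC

open Pool.Agent.Helper15.FC Polynomial

section

variable {F : Type} [Field F] [Fintype F]

private theorem gam_mem_add {N : ℕ} {G H : F[X]} (hG : G ∈ Mn F N) (hH : H.degree < N) :
    G + H ∈ Mn F N := by
  rw [mem_Mn] at hG ⊢
  have h : H.degree < G.degree := by
    rw [Polynomial.degree_eq_natDegree hG.1.ne_zero, hG.2]
    exact hH
  refine ⟨hG.1.add_of_left h, ?_⟩
  rw [Polynomial.natDegree_add_eq_left_of_degree_lt h, hG.2]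

private theorem gam_shift {β : Type} [AddCommMonoid β] {N : ℕ} {H : F[X]} (hH : H ∈ Lw F N)
    (f : F[X] → β) : ∑ G ∈ Mn F N, f (G + H) = ∑ G ∈ Mn F N, f G := by
  rw [mem_Lw] at hH
  refine Finset.sum_nbij' (fun G => G + H) (fun G => G - H) ?_ ?_ ?_ ?_ ?_
  · intro G hG
    exact gam_mem_add hG hH
  · intro G hG
    change G - H ∈ Mn F N
    rw [sub_eq_add_neg]
    exact gam_mem_add hG (by rwa [Polynomial.degree_neg])
  · intro G _
    simp
  · intro G _
    simp
  · intro G _
    rfl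

private theorem gam_cs (S : Finset F[X]) (a b : F[X] → ℂ) :
    ‖∑ G ∈ S, (starRingEnd ℂ) (a G) * b G‖ ^ 2 ≤ (∑ G ∈ S, ‖a G‖ ^ 2) * ∑ G ∈ S, ‖b G‖ ^ 2 := by
  have h1 : ‖∑ G ∈ S, (starRingEnd ℂ) (a G) * b G‖ ≤ ∑ G ∈ S, ‖a G‖ * ‖b G‖ := by
    refine le_trans (norm_sum_le _ _) (le_of_eq ?_)
    refine Finset.sum_congr rfl fun G _ => ?_
    rw [norm_mul, RCLike.norm_conj]
  refine le_trans (pow_le_pow_left₀ (norm_nonneg _) h1 2) ?_
  exact Finset.sum_mul_sq_le_sq_mul_sq _ _ _

private theorem gam_split {β : Type} [AddCommMonoid β] {n m : ℕ} (hmn : m ≤ n)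
    (f : F[X] → β) : ∑ G ∈ Mn F (n - m), ∑ g ∈ Lw F m, f (X ^ m * G + g) = ∑ x ∈ Mn F n, f x := by
  have hXm : (X ^ m : F[X]).Monic := Polynomial.monic_X_pow m
  rw [← Finset.sum_product' (Mn F (n - m)) (Lw F m) (fun G g => f (X ^ m * G + g))]
  refine Finset.sum_nbij' (fun p => X ^ m * p.1 + p.2) (fun x => (x /ₘ X ^ m, x %ₘ X ^ m))
    ?_ ?_ ?_ ?_ ?_
  · rintro ⟨G, g⟩ hp
    rw [Finset.mem_product] at hp
    obtain ⟨hG, hg⟩ := hp
    simp only at hG hg ⊢
    rw [mem_Mn] at hG
    rw [mem_Lw] at hg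
    have h1 : (X ^ m * G : F[X]) ∈ Mn F n := by
      rw [mem_Mn]
      refine ⟨hXm.mul hG.1, ?_⟩
      rw [hXm.natDegree_mul hG.1, Polynomial.natDegree_X_pow, hG.2]
      omega
    refine gam_mem_add h1 (lt_of_lt_of_le hg ?_)
    exact_mod_cast hmn
  · intro x hx
    rw [mem_Mn] at hx
    rw [Finset.mem_product]
    refine ⟨?_, ?_⟩
    · change x /ₘ X ^ m ∈ Mn F (n - m)
      rw [mem_Mn]
      constructor
      · rw [Polynomial.Monic, Polynomial.leadingCoeff_divByMonic_of_monic hXm]
        · exact hx.1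
        · rw [Polynomial.degree_X_pow, Polynomial.degree_eq_natDegree hx.1.ne_zero, hx.2]
          exact_mod_cast hmn
      · rw [Polynomial.natDegree_divByMonic _ hXm, hx.2, Polynomial.natDegree_X_pow]
    · change x %ₘ X ^ m ∈ Lw F m
      rw [mem_Lw]
      have := Polynomial.degree_modByMonic_lt x hXm
      rwa [Polynomial.degree_X_pow] at this
  · rintro ⟨G, g⟩ hp
    rw [Finset.mem_product] at hp
    obtain ⟨hG, hg⟩ := hp
    simp only at hG hg ⊢
    rw [mem_Lw] at hg
    have h := Polynomial.div_modByMonic_unique (f := X ^ m * G + g) (g := X ^ m) G g hXm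
      ⟨by ring, by rwa [Polynomial.degree_X_pow]⟩
    rw [h.1, h.2]
  · intro x _
    change X ^ m * (x /ₘ X ^ m) + x %ₘ X ^ m = x
    rw [add_comm]
    exact Polynomial.modByMonic_add_div x (X ^ m)
  · intro p _
    rfl

end

theorem hGAM (hACF : StACF) (hUNI : StUNI) : StGAM := by
  intro F _ _ k l n m Q H0 η hmn hQ hH0 _
  obtain ⟨hν, _⟩ := hACF F
  by_cases hex : ∃ r : F[X], r.Monic ∧ r.natDegree ≤ Q ∧ ∃ ν ∈ Pr r, ∀ g ∈ Lw F m, η g = ν g
  · obtain ⟨r, hr, hrQ, ν, hνr, hag⟩ := hex
    -- the main part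
    obtain ⟨cc, hcc⟩ : ∃ cc : ℕ → ℂ, cc = fun k => ((Fintype.card F : ℂ) ^ (n - m))⁻¹ * Sn k n ν :=
      ⟨_, rfl⟩
    have hMe : ∀ (k : ℕ) (G : F[X]), Me k n m Q η G = ν (-(X ^ m * G)) * cc k := by
      intro k G
      have huni : ∀ (r' : F[X]) (ν' : AddChar F[X] ℂ), r'.Monic → r'.natDegree ≤ Q → ν' ∈ Pr r' →
          (∀ g ∈ Lw F m, η g = ν' g) → r' = r ∧ ν' = ν := by
        intro r' ν' h1 h2 h3 h4
        exact hUNI F m Q r' r ν' ν hQ h1 hr h2 hrQ h3 hνr (fun g hg => by
          rw [← h4 g hg, hag g hg])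
      unfold Me
      rw [Finset.sum_eq_single r.natDegree]
      · rw [Finset.sum_eq_single r]
        · rw [Finset.sum_eq_single ν]
          · rw [hcc]; ring
          · intro ν' hν' hne
            rw [Finset.mem_filter] at hν'
            exact absurd (huni r ν' hr hrQ hν'.1 hν'.2).2 hne
          · intro hnot
            exact absurd (Finset.mem_filter.2 ⟨hνr, hag⟩) hnot
        · intro r' hr' hne
          rw [mem_Mn] at hr'
          refine Finset.sum_eq_zero fun ν' hν' => ?_
          rw [Finset.mem_filter] at hν'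
          exact absurd (huni r' ν' hr'.1 (by omega) hν'.1 hν'.2).1 hne
        · intro hnot
          exact absurd (mem_Mn.2 ⟨hr, rfl⟩) hnot
      · intro i hi hne
        rw [Finset.mem_range] at hi
        refine Finset.sum_eq_zero fun r' hr' => Finset.sum_eq_zero fun ν' hν' => ?_
        rw [mem_Mn] at hr'
        rw [Finset.mem_filter] at hν'
        have := (huni r' ν' hr'.1 (by omega) hν'.1 hν'.2).1
        rw [this] at hr'
        exact absurd hr'.2.symm hne
      · intro hnot
        exact absurd (Finset.mem_range.2 (by omega)) hnot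
    have hconj : ∀ x : F[X], ν (-x) = (starRingEnd ℂ) (ν x) := fun x => (hν ν x).2
    have hone : ∀ x : F[X], ν x * (starRingEnd ℂ) (ν x) = 1 := by
      intro x
      rw [Complex.mul_conj, Complex.normSq_eq_norm_sq, (hν ν x).1]
      norm_num
    have hcard : (Fintype.card F : ℂ) ^ (n - m) ≠ 0 := by
      have : Fintype.card F ≠ 0 := Fintype.card_ne_zero
      exact pow_ne_zero _ (by exact_mod_cast this)
    -- the mean of the error vanishes
    have hzero : ∀ k : ℕ, ∑ G ∈ Mn F (n - m), ν (X ^ m * G) * (Ae k m η G - Me k n m Q η G) = 0 := by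
      intro k
      have h1 : ∑ G ∈ Mn F (n - m), ν (X ^ m * G) * Ae k m η G = Sn k n ν := by
        unfold Sn
        rw [← gam_split hmn (fun f => (dk k f : ℂ) * ν f)]
        refine Finset.sum_congr rfl fun G _ => ?_
        unfold Ae
        rw [Finset.mul_sum]
        refine Finset.sum_congr rfl fun g hg => ?_
        rw [hag g hg, AddChar.map_add_eq_mul]
        ring
      have h2 : ∑ G ∈ Mn F (n - m), ν (X ^ m * G) * Me k n m Q η G = Sn k n ν := by
        have : ∀ G ∈ Mn F (n - m), ν (X ^ m * G) * Me k n m Q η G = cc k := by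
          intro G _
          rw [hMe k G, hconj, ← mul_assoc, hone, one_mul]
        rw [Finset.sum_congr rfl this, Finset.sum_const, card_Mn, nsmul_eq_mul, hcc]
        push_cast
        rw [← mul_assoc, mul_inv_cancel₀ hcard, one_mul]
      simp only [mul_sub]
      rw [Finset.sum_sub_distrib, h1, h2, sub_self]
    obtain ⟨E, hE⟩ : ∃ E : ℕ → F[X] → ℂ, E = fun k G => Ae k m η G - Me k n m Q η G := ⟨_, rfl⟩
    have hz : ∀ k : ℕ, ∑ G ∈ Mn F (n - m), ν (X ^ m * G) * E k G = 0 := by
      intro k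
      rw [hE]
      exact hzero k
    -- first mixed sum
    have hmix1 : ∑ G ∈ Mn F (n - m), (starRingEnd ℂ) (Me k n m Q η G) * E l (G + H0) = 0 := by
      have h1 : ∀ G ∈ Mn F (n - m), (starRingEnd ℂ) (Me k n m Q η G) * E l (G + H0) =
          ((starRingEnd ℂ) (cc k) * (starRingEnd ℂ) (ν (X ^ m * H0))) *
            (ν (X ^ m * (G + H0)) * E l (G + H0)) := by
        intro G _
        rw [hMe k G, hconj, map_mul, Complex.conj_conj, mul_add, AddChar.map_add_eq_mul]
        have := hone (X ^ m * H0)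
        linear_combination (-(ν (X ^ m * G) * (starRingEnd ℂ) (cc k) * E l (G + H0))) * this
      rw [Finset.sum_congr rfl h1, ← Finset.mul_sum,
        gam_shift hH0 (fun G => ν (X ^ m * G) * E l G), hz l, mul_zero]
    -- second mixed sum
    have hmix2 : ∑ G ∈ Mn F (n - m), (starRingEnd ℂ) (E k G) * Me l n m Q η (G + H0) = 0 := by
      have h1 : ∀ G ∈ Mn F (n - m), (starRingEnd ℂ) (E k G) * Me l n m Q η (G + H0) =
          ((starRingEnd ℂ) (ν (X ^ m * H0)) * cc l) *
            (starRingEnd ℂ) (ν (X ^ m * G) * E k G) := by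
        intro G _
        rw [hMe l (G + H0), hconj, mul_add, AddChar.map_add_eq_mul, RingHom.map_mul,
          RingHom.map_mul]
        ring
      rw [Finset.sum_congr rfl h1, ← Finset.mul_sum, ← map_sum, hz k, map_zero, mul_zero]
    have hdec : ∑ G ∈ Mn F (n - m), (starRingEnd ℂ) (Ae k m η G) * Ae l m η (G + H0) -
        ∑ G ∈ Mn F (n - m), (starRingEnd ℂ) (Me k n m Q η G) * Me l n m Q η (G + H0) =
        ∑ G ∈ Mn F (n - m), (starRingEnd ℂ) (E k G) * E l (G + H0) := by
      have h1 : ∀ G ∈ Mn F (n - m), (starRingEnd ℂ) (Ae k m η G) * Ae l m η (G + H0) -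
          (starRingEnd ℂ) (Me k n m Q η G) * Me l n m Q η (G + H0) =
          (starRingEnd ℂ) (E k G) * E l (G + H0) +
          (starRingEnd ℂ) (Me k n m Q η G) * E l (G + H0) +
          (starRingEnd ℂ) (E k G) * Me l n m Q η (G + H0) := by
        intro G _
        rw [hE]
        simp only [map_sub]
        ring
      rw [← Finset.sum_sub_distrib, Finset.sum_congr rfl h1, Finset.sum_add_distrib,
        Finset.sum_add_distrib, hmix1, hmix2, add_zero, add_zero]
    rw [hdec]
    refine le_trans (gam_cs _ (E k) (fun G => E l (G + H0))) (le_of_eq ?_)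
    rw [gam_shift hH0 (fun G => ‖E l G‖ ^ 2), hE]
  · have hMe : ∀ (k : ℕ) (G : F[X]), Me k n m Q η G = 0 := by
      intro k G
      unfold Me
      refine Finset.sum_eq_zero fun i hi => Finset.sum_eq_zero fun r hr =>
        Finset.sum_eq_zero fun ν hν => ?_
      rw [Finset.mem_range] at hi
      rw [mem_Mn] at hr
      rw [Finset.mem_filter] at hν
      exact absurd ⟨r, hr.1, by omega, ν, hν.1, hν.2⟩ hex
    simp only [hMe, mul_zero, Finset.sum_const_zero, sub_zero]
    refine le_trans (gam_cs _ (fun G => Ae k m η G) (fun G => Ae l m η (G + H0))) (le_of_eq ?_)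
    rw [gam_shift hH0 (fun G => ‖Ae l m η G‖ ^ 2)]

end Pool.Agent.Helper22.FC
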