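import Pool.Agent.Helper15.FC.St2

set_option autoImplicit false

namespace Pool.Agent.Helper22.FC

open Pool.Agent.Helper15.FC Polynomial

private theorem psb_geom (q : ℝ) (hq : 2 ≤ q) (e : ℕ) :
    ∑ d ∈ Finset.range (e + 1), q ^ d ≤ 2 * q ^ e := by
  induction e with
  | zero => simp
  | succ e ih =>
    rw [Finset.sum_range_succ]
    have h1 : 2 * q ^ e ≤ q ^ (e + 1) := by
      rw [pow_succ, mul_comm]
      exact mul_le_mul_of_nonneg_left hq (by positivity)
    linarith

private theorem psb_small (q s : ℝ) (hq : 2 ≤ q) (hs : 0 ≤ s) (hqs : q * s ^ 2 = 1) (j : ℕ) :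
    q ^ (j / 2) * s ^ j ≤ 1 := by
  have hs1 : s ≤ 1 := by
    by_contra h
    push Not at h
    have : 1 < s ^ 2 := by nlinarith
    nlinarith
  have h2 : ∀ e : ℕ, q ^ e * s ^ (2 * e) = 1 := by
    intro e
    rw [pow_mul, ← mul_pow, hqs, one_pow]
  rcases Nat.even_or_odd' j with ⟨e, he | he⟩
  · have : j / 2 = e := by omega
    rw [this, he, h2]
  · have : j / 2 = e := by omega
    rw [this, he, pow_succ, ← mul_assoc, h2, one_mul]
    exact hs1

theorem hPSB (hIRB : StIRB) : StPSB := by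
  intro F _ _ Χ hΧ j u hj hu
  have hq : (2 : ℝ) ≤ qr F := by
    have : 2 ≤ Fintype.card F := Fintype.one_lt_card
    exact_mod_cast this
  have hq0 : (0 : ℝ) < qr F := by linarith
  have hjR : (0 : ℝ) < j := by exact_mod_cast hj
  have hjC : (j : ℂ) ≠ 0 := by exact_mod_cast (by omega : j ≠ 0)
  -- the inner sums
  have hin : ∀ d : ℕ, 1 ≤ d → ∀ e : ℕ, ‖(d : ℂ) * ∑ P ∈ Ir F d, Χ P ^ e‖ ≤ qr F ^ d := by
    intro d hd e
    rw [norm_mul, Complex.norm_natCast]
    refine le_trans ?_ (hIRB F d hd)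
    refine mul_le_mul_of_nonneg_left ?_ (by positivity)
    refine le_trans (norm_sum_le _ _) ?_
    have : ∀ P ∈ Ir F d, ‖Χ P ^ e‖ ≤ 1 := by
      intro P hP
      rw [norm_pow]
      have hPm : P.Monic := by
        classical
        unfold Ir at hP
        rw [Finset.mem_filter] at hP
        exact (mem_Mn.1 hP.1).1
      exact pow_le_one₀ (norm_nonneg _) (hΧ.2.2 P hPm)
    refine le_trans (Finset.sum_le_sum this) ?_
    simp
  -- splitting off the term `d = j`
  have hsplit : Psi Χ j = (∑ d ∈ j.properDivisors, (d : ℂ) * ∑ P ∈ Ir F d, Χ P ^ (j / d)) +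
      (j : ℂ) * ∑ P ∈ Ir F j, Χ P := by
    unfold Psi
    rw [← Nat.cons_self_properDivisors (by omega), Finset.sum_cons, Nat.div_self (by omega),
      add_comm]
    simp only [pow_one]
  obtain ⟨E, hE⟩ : ∃ E, E = ∑ d ∈ j.properDivisors, (d : ℂ) * ∑ P ∈ Ir F d, Χ P ^ (j / d) :=
    ⟨_, rfl⟩
  have hEn : ‖E‖ ≤ 2 * qr F ^ (j / 2) := by
    rw [hE]
    refine le_trans (norm_sum_le _ _) ?_
    refine le_trans (Finset.sum_le_sum (g := fun d => qr F ^ d) ?_) ?_
    · intro d hd
      exact hin d (Nat.pos_of_mem_properDivisors hd) _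
    · refine le_trans (Finset.sum_le_sum_of_subset_of_nonneg (t := Finset.range (j / 2 + 1)) ?_ ?_)
        (psb_geom (qr F) hq (j / 2))
      · intro d hd
        rw [Nat.mem_properDivisors] at hd
        rw [Finset.mem_range]
        obtain ⟨⟨c, hc⟩, hlt⟩ := hd
        have hc2 : 2 ≤ c := by
          by_contra hcon
          have : c = 0 ∨ c = 1 := by omega
          rcases this with h | h
          · rw [h, mul_zero] at hc; omega
          · rw [h, mul_one] at hc; omega
        have : d * 2 ≤ j := by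
          rw [hc]
          exact Nat.mul_le_mul_left d hc2
        omega
      · intro d _ _
        positivity
  have hfin : Psi Χ j * u ^ j / j - ∑ P ∈ Ir F j, Χ P * u ^ j = E * u ^ j / j := by
    rw [hsplit, ← hE, ← Finset.sum_mul]
    field_simp
    ring
  rw [hfin, norm_div, norm_mul, norm_pow, Complex.norm_natCast]
  refine div_le_div_of_nonneg_right ?_ hjR.le
  calc ‖E‖ * ‖u‖ ^ j ≤ (2 * qr F ^ (j / 2)) * ‖u‖ ^ j :=
        mul_le_mul_of_nonneg_right hEn (by positivity)
    _ = 2 * (qr F ^ (j / 2) * ‖u‖ ^ j) := by ring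
    _ ≤ 2 * 1 := mul_le_mul_of_nonneg_left (psb_small (qr F) ‖u‖ hq (norm_nonneg _) hu j)
        (by norm_num)
    _ = 2 := by ring

end Pool.Agent.Helper22.FC
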